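import Pool.Agent.H13.AA.Cl
import Pool.Agent.H13.L.S8.TH25.AD.A8
import Pool.Agent.H13.L.Rf72.W656.VC4

/-!
All real numbers are values over the class as soon as one value is not an integer.
-/

set_option autoImplicit false
set_option linter.unusedSectionVars false

open scoped InnerProductSpace ENNReal ComplexConjugate
open Filter Topology

namespace Pool.Agent.H13.AA

open Pool.Agent.W656.VA
open Pool.Agent.H80R2
open Pool.Agent.H80R2.BC (L2 GMat vdim IsTr LInv Equi act kerA pt vals Coef)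
open Pool.Agent.H812R3
open Pool.Agent.TH25.AD (VV TF greedy rem lamp_exists fg_val_sub idM op_idM)

section
variable {C : (G : Type) → [Group G] → Prop} {R : Subring ℂ}

theorem vv_mul (hC : Cl C) {v w : ℝ} (h : VV C R v) (h' : VV C R w) : VV C R (v * w) := by
  obtain ⟨H, _, hH, h⟩ := h
  obtain ⟨H', _, hH', h'⟩ := h'
  exact ⟨H × H', inferInstance, hC.prod H H' hH hH', val_mul h h'⟩

theorem vv_pow (hC : Cl C) {v : ℝ} (h : VV C R v) (n : ℕ) : VV C R (v ^ (n + 1)) := by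
  induction n with
  | zero => simpa using h
  | succ n ih =>
    rw [pow_succ]
    exact vv_mul hC ih h

theorem vv_small (hC : Cl C) {ρ : ℝ} (h : VV C R ρ) (h0 : 0 < ρ) (h1 : ρ < 1) (ε : ℝ)
    (hε : 0 < ε) : ∃ e : ℝ, 0 < e ∧ e < ε ∧ VV C R e := by
  obtain ⟨n, hn⟩ := exists_pow_lt_of_lt_one hε h1
  refine ⟨ρ ^ (n + 1), pow_pos h0 _, ?_, vv_pow hC h n⟩
  refine lt_of_le_of_lt ?_ hn
  exact pow_le_pow_of_le_one h0.le h1.le (Nat.le_succ n)

/-- an interval of values -/
theorem interval (hC : Cl C) (hR : ∀ c ∈ R, conj c ∈ R) {G : Type} [Group G] (hG : C G)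
    {ι κ : Type} [Fintype ι] [Fintype κ] (A : GMat κ ι G) (T : GMat Unit ι G) (hA : Coef R A)
    (hT : Coef R T) (hAT : kerA A ⊓ kerA T = ⊥) {α : ℝ} (hvA : vdim (kerA A) = α)
    (h1 : 1 / 2 ≤ α) (h2 : α < 1) : ∃ d : ℝ, 0 ≤ d ∧ ∀ r : ℝ, 0 ≤ r → r ≤ 1 - α →
      VV C R (r + d) := by
  classical
  have htf : TF G := hC.tf _ hG
  have htf' : TF Kb := hC.tf _ (hC.kb hG)
  have key : ∀ r : ℝ, 0 ≤ r → r ≤ 1 - α →
      VV C R (r + 4 * (Fintype.card κ - Fintype.card ι + vdim (kerA A))) := by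
    intro r hr0 hr1
    have h3 : 0 < 1 - α := by linarith
    have h4 : (1 - α) ^ 2 ≠ 0 := by positivity
    have h5 := greedy h1 h2 (t := r / (1 - α) ^ 2) (by positivity) (by
      rw [div_le_div_iff₀ (by positivity) h3]
      nlinarith)
    set S : Set ℕ := {n | 1 ≤ rem α (r / (1 - α) ^ 2) n} with hS
    obtain ⟨w, hw, hval⟩ := values hR htf htf' kpq A T hA hT hAT (by rw [hvA]; exact h2) S
    have h6 : HasSum (fun n : ℕ => if n ∈ S then (1 - vdim (kerA A)) ^ 2 * vdim (kerA A) ^ n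
        else 0) r := by
      have h7 := h5.mul_left ((1 - α) ^ 2)
      have e1 : (1 - α) ^ 2 * (r / (1 - α) ^ 2) = r := by field_simp
      rw [e1] at h7
      have e3 : (fun n : ℕ => if n ∈ S then (1 - α) ^ 2 * α ^ n else 0)
          = fun n : ℕ => (1 - α) ^ 2 * (if 1 ≤ rem α (r / (1 - α) ^ 2) n then α ^ n else 0) := by
        funext n
        by_cases hn : 1 ≤ rem α (r / (1 - α) ^ 2) n
        · rw [if_pos hn, if_pos (show n ∈ S from hn)]
        · rw [if_neg hn, if_neg (show n ∉ S from hn), mul_zero]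
      rw [hvA, e3]
      exact h7
    rw [hw.unique h6] at hval
    exact ⟨_, inferInstance, hC.hs hG, hval⟩
  refine ⟨_, ?_, key⟩
  have := (key 0 le_rfl (by linarith)).nonneg
  linarith

/-- all values, from a value in the interval `(0, 1)` and an interval of values -/
theorem all_of (hC : Cl C) {ρ : ℝ} (h : VV C R ρ) (h0 : 0 < ρ) (h1 : ρ < 1) {d δ : ℝ}
    (hd : 0 ≤ d) (hδ0 : 0 < δ) (hint : ∀ r : ℝ, 0 ≤ r → r ≤ δ → VV C R (r + d)) (r : ℝ)
    (hr : 0 ≤ r) : VV C R r := by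
  rcases hr.eq_or_lt with rfl | hr
  · obtain ⟨G, _, hG, _⟩ := h
    exact ⟨G, inferInstance, hG, val_zero⟩
  have hsmall := vv_small hC h h0 h1
  have hdδ : 0 < d + δ := by linarith
  have hlarge : ∀ t : ℝ, 0 < t → d * (d + δ) / δ ≤ t → VV C R t := by
    intro t ht0 ht
    set n := ⌈t / (d + δ)⌉₊ with hn
    have hn0 : 0 < n := Nat.ceil_pos.2 (by positivity)
    have hn0' : (0 : ℝ) < n := by exact_mod_cast hn0
    have h3 : t / (d + δ) ≤ n := Nat.le_ceil _
    have h4 : (n : ℝ) < t / (d + δ) + 1 := Nat.ceil_lt_add_one (by positivity)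
    have h5 : t / n ≤ d + δ := by
      rw [div_le_iff₀ hn0']
      rw [div_le_iff₀ hdδ] at h3
      linarith
    have h6 : d ≤ t / n := by
      rw [le_div_iff₀ hn0']
      have h7 : d * n ≤ d * (t / (d + δ) + 1) := mul_le_mul_of_nonneg_left h4.le hd
      have h8 : d * (t / (d + δ) + 1) ≤ t := by
        rw [div_le_iff₀ hδ0] at ht
        have e : d * (t / (d + δ) + 1) = (d * t + d * (d + δ)) / (d + δ) := by field_simp
        rw [e, div_le_iff₀ hdδ]
        nlinarith
      linarith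
    have h9 := (hint (t / n - d) (by linarith) (by linarith)).nsmul n
    have e : (n : ℝ) * (t / n - d + d) = t := by
      rw [sub_add_cancel]
      field_simp
    rwa [e] at h9
  set M := d * (d + δ) / δ + 1 with hM
  have hM0 : 0 < M := by positivity
  obtain ⟨e, he0, he1, he⟩ := hsmall (r / M) (by positivity)
  have h10 : M ≤ r / e := by
    rw [le_div_iff₀ he0]
    rw [lt_div_iff₀ hM0] at he1
    linarith
  have h11 := vv_mul hC he (hlarge (r / e) (by positivity) (by linarith))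
  have e2 : e * (r / e) = r := by field_simp
  rwa [e2] at h11

/-- closed under free products with free groups, too -/
theorem all_free (hC : Cl C) (hF : ∀ (G : Type) [Group G] (m : ℕ), C G →
      C (Monoid.Coprod G (FreeGroup (Fin m))))
    (hR : ∀ c ∈ R, conj c ∈ R) {ρ : ℝ} (h : VV C R ρ) (h0 : 0 < ρ)
    (h1 : ρ < 1) (r : ℝ) (hr : 0 ≤ r) : VV C R r := by
  have hsmall := vv_small hC h h0 h1
  obtain ⟨α, ha1, ha2, hα⟩ : ∃ α : ℝ, 1 / 2 ≤ α ∧ α < 1 ∧ VV C R α := by
    obtain ⟨e, he0, he1, he⟩ := hsmall (1 / 2) (by norm_num)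
    refine ⟨(⌈1 / (2 * e)⌉₊ : ℝ) * e, ?_, ?_, he.nsmul _⟩
    · have h2 := Nat.le_ceil (1 / (2 * e))
      rw [div_le_iff₀ (by positivity)] at h2
      linarith
    · have h2 := Nat.ceil_lt_add_one (a := 1 / (2 * e)) (by positivity)
      have h3 : (⌈1 / (2 * e)⌉₊ : ℝ) * e < (1 / (2 * e) + 1) * e :=
        mul_lt_mul_of_pos_right h2 he0
      have h4 : (1 / (2 * e) + 1) * e = 1 / 2 + e := by field_simp
      linarith
  obtain ⟨G, _, hG, hv⟩ := hα
  obtain ⟨m, ι, κ, _, _, A, T, hA, hT, hAT, hvA⟩ := lamp_exists hv ha2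
  obtain ⟨d, hd, hint⟩ := interval hC hR (hF G m hG) A T hA hT hAT hvA ha1 ha2
  exact all_of hC h h0 h1 hd (by linarith) hint r hr

/-- the value of an element -/
theorem ev_val {G : Type} [Group G] {v : ℝ} (h : EV R G v) : Val R G v := by
  obtain ⟨a, ha, rfl⟩ := h
  exact val_of (m1 a) (fun _ _ g => ha g)

/-- large values of elements -/
theorem ev_large (hC : Cl C) {G : Type} [Group G] (hG : C G) {v : ℝ} (hv : EV R G v)
    (h0 : 0 < v) (h1 : v < 1) : ∃ (H : Type) (_ : Group H), C H ∧ ∃ α : ℝ, 1 / 2 ≤ α ∧ α < 1 ∧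
      EV R H α := by
  have key : ∀ n : ℕ, ∃ (H : Type) (_ : Group H), C H ∧ EV R H (1 - (1 - v) ^ (n + 1)) := by
    intro n
    induction n with
    | zero =>
      refine ⟨G, inferInstance, hG, ?_⟩
      have e : 1 - (1 - v) ^ (0 + 1) = v := by ring
      rw [e]
      exact hv
    | succ n ih =>
      obtain ⟨H, _, hH, h⟩ := ih
      refine ⟨H × G, inferInstance, hC.prod _ _ hH hG, ?_⟩
      have h2 := ev_comul h hv
      have e : 1 - (1 - v) ^ (n + 1 + 1) = 1 - (1 - v) ^ (n + 1) + v -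
          (1 - (1 - v) ^ (n + 1)) * v := by ring
      rw [e]
      exact h2
  obtain ⟨n, hn⟩ := exists_pow_lt_of_lt_one (show (0 : ℝ) < 1 / 2 by norm_num)
    (show 1 - v < 1 by linarith)
  obtain ⟨H, _, hH, h⟩ := key n
  refine ⟨H, inferInstance, hH, _, ?_, ?_, h⟩
  · have h3 : (1 - v) ^ (n + 1) ≤ (1 - v) ^ n :=
      pow_le_pow_of_le_one (by linarith) (by linarith) (Nat.le_succ n)
    linarith
  · have h3 : 0 < (1 - v) ^ (n + 1) := pow_pos (by linarith) _
    linarith

/-- from a value of an element -/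
theorem all_elt (hC : Cl C) (hR : ∀ c ∈ R, conj c ∈ R) {G : Type} [Group G] (hG : C G) {v : ℝ}
    (hv : EV R G v) (h0 : 0 < v) (h1 : v < 1) (r : ℝ) (hr : 0 ≤ r) : VV C R r := by
  obtain ⟨H, _, hH, α, ha1, ha2, a, ha, hα⟩ := ev_large hC hG hv h0 h1
  have hT : kerA (idM H) = ⊥ := by
    rw [eq_bot_iff]
    intro x hx
    rw [kerA_eq, mem_kr, op_idM] at hx
    exact hx
  obtain ⟨d, hd, hint⟩ := interval hC hR hH (m1 a) (idM H) (fun _ _ g => ha g)
    (fun k i g => coef_single _ _ R.one_mem _) (by rw [hT, inf_bot_eq]) hα ha1 ha2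
  exact all_of hC ⟨G, inferInstance, hG, ev_val hv⟩ h0 h1 hd (by linarith) hint r hr

/-- one group with all values -/
theorem one_grp (hC : Cl C) (h : ∀ r : ℝ, 0 ≤ r → VV C R r) :
    ∃ (H : Type) (_ : Group H), C H ∧ ∀ r : ℝ, 0 ≤ r → Val R H r := by
  classical
  have h' : ∀ r : ℝ, VV C R |r| := fun r => h _ (abs_nonneg r)
  choose H iH hH hv using h'
  refine ⟨DS H, inferInstance, hC.ds 0 H hH, fun r hr => ?_⟩
  have h1 := val_incl (DS.incl H r) (DS.incl_injective H r) (hv r)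
  rwa [abs_of_nonneg hr] at h1

end

end Pool.Agent.H13.AA
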