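import Mathlib

/-!
Følner's condition: subgroups, extensions, directed unions, the integers.
-/

set_option autoImplicit false

namespace Pool.Agent.H13.AA

/-- Følner's condition: for every finite set `S` and every `ε > 0` there is a nonempty finite set
`F` such that `F S` has at most `(1 + ε) |F|` elements. -/
def Amenable (G : Type) [Group G] : Prop :=
  ∀ (S : Finset G) (ε : ℝ), 0 < ε → ∃ F : Finset G, F.Nonempty ∧
    (Set.ncard {g : G | ∃ f ∈ F, ∃ s ∈ S, g = f * s} : ℝ) ≤ (1 + ε) * F.card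

open Classical in
theorem set_eq {G : Type} [Group G] (F S : Finset G) :
    {g : G | ∃ f ∈ F, ∃ s ∈ S, g = f * s} = ((F ×ˢ S).image fun p => p.1 * p.2 : Finset G) := by
  ext g
  simp only [Set.mem_ofPred_eq, Finset.coe_image, Set.mem_image, Finset.coe_product,
    Set.mem_prod, Finset.mem_coe, Prod.exists]
  constructor
  · rintro ⟨f, hf, s, hs, rfl⟩
    exact ⟨f, s, ⟨hf, hs⟩, rfl⟩
  · rintro ⟨f, s, ⟨hf, hs⟩, rfl⟩
    exact ⟨f, hf, s, hs, rfl⟩

/-- extensions of amenable groups by amenable groups -/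
theorem Amenable.ext {G Q : Type} [Group G] [Group Q] (q : G →* Q) (hq : Function.Surjective q)
    (hN : Amenable q.ker) (hQ : Amenable Q) : Amenable G := by
  classical
  intro S ε hε
  obtain ⟨δ, hδ, hδ2⟩ : ∃ δ : ℝ, 0 < δ ∧ (1 + δ) * (1 + δ) ≤ 1 + ε := by
    refine ⟨min 1 (ε / 3), lt_min one_pos (by positivity), ?_⟩
    have h1 : min 1 (ε / 3) ≤ 1 := min_le_left _ _
    have h2 : min 1 (ε / 3) ≤ ε / 3 := min_le_right _ _
    have h3 : 0 < min 1 (ε / 3) := lt_min one_pos (by positivity)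
    nlinarith
  obtain ⟨FQ, hFQ, hFQc⟩ := hQ (S.image q) δ hδ
  choose t ht using hq
  have hk : ∀ (x : Q) (s : G), t x * s * (t (x * q s))⁻¹ ∈ q.ker := by
    intro x s
    rw [MonoidHom.mem_ker, map_mul, map_mul, map_inv, ht, ht, mul_inv_cancel]
  let kk : Q × G → q.ker := fun p => ⟨t p.1 * p.2 * (t (p.1 * q p.2))⁻¹, hk p.1 p.2⟩
  let K : Finset q.ker := (FQ ×ˢ S).image kk
  obtain ⟨FN, hFN, hFNc⟩ := hN K δ hδ
  let F : Finset G := (FN ×ˢ FQ).image (fun p => (p.1 : G) * t p.2)
  have hinj : Function.Injective (fun p : q.ker × Q => (p.1 : G) * t p.2) := by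
    rintro ⟨n, x⟩ ⟨m, y⟩ h
    simp only at h
    have hx : x = y := by
      have := congrArg q h
      rw [map_mul, map_mul, ht, ht, (MonoidHom.mem_ker).1 n.2, (MonoidHom.mem_ker).1 m.2, one_mul,
        one_mul] at this
      exact this
    subst hx
    have hn : (n : G) = m := mul_right_cancel h
    rw [Subtype.ext hn]
  have hFc : F.card = FN.card * FQ.card := by
    rw [← Finset.card_product]
    exact Finset.card_image_of_injective _ hinj
  refine ⟨F, ?_, ?_⟩
  · exact (hFN.product hFQ).image _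
  · set A : Set q.ker := {g | ∃ f ∈ FN, ∃ s ∈ K, g = f * s} with hA
    set B : Set Q := {g | ∃ f ∈ FQ, ∃ s ∈ S.image q, g = f * s} with hB
    have hAf : A.Finite := by
      rw [hA, set_eq]
      exact Finset.finite_toSet _
    have hBf : B.Finite := by
      rw [hB, set_eq]
      exact Finset.finite_toSet _
    have hsub : {g : G | ∃ f ∈ F, ∃ s ∈ S, g = f * s} ⊆
        (fun p : q.ker × Q => (p.1 : G) * t p.2) '' (A ×ˢ B) := by
      rintro g ⟨f, hf, s, hs, rfl⟩
      obtain ⟨⟨n, x⟩, hnx, rfl⟩ := Finset.mem_image.1 hf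
      rw [Finset.mem_product] at hnx
      refine ⟨(n * kk (x, s), x * q s), ⟨⟨n, hnx.1, kk (x, s), ?_, rfl⟩, ?_⟩, ?_⟩
      · exact Finset.mem_image.2 ⟨(x, s), by rw [Finset.mem_product]; exact ⟨hnx.2, hs⟩, rfl⟩
      · exact ⟨x, hnx.2, q s, Finset.mem_image_of_mem _ hs, rfl⟩
      · simp only [kk, Subgroup.coe_mul]
        group
    have hcard : Set.ncard {g : G | ∃ f ∈ F, ∃ s ∈ S, g = f * s} ≤ A.ncard * B.ncard := by
      calc _ ≤ ((fun p : q.ker × Q => (p.1 : G) * t p.2) '' (A ×ˢ B)).ncard :=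
            Set.ncard_le_ncard hsub ((hAf.prod hBf).image _)
        _ ≤ (A ×ˢ B).ncard := Set.ncard_image_le (hAf.prod hBf)
        _ = A.ncard * B.ncard := Set.ncard_prod
    have h1 : (Set.ncard {g : G | ∃ f ∈ F, ∃ s ∈ S, g = f * s} : ℝ) ≤ (A.ncard : ℝ) * B.ncard := by
      exact_mod_cast hcard
    have h2 : (A.ncard : ℝ) ≤ (1 + δ) * FN.card := hFNc
    have h3 : (B.ncard : ℝ) ≤ (1 + δ) * FQ.card := hFQc
    calc _ ≤ (A.ncard : ℝ) * B.ncard := h1
      _ ≤ ((1 + δ) * FN.card) * ((1 + δ) * FQ.card) := by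
          apply mul_le_mul h2 h3 (by positivity) (by positivity)
      _ = ((1 + δ) * (1 + δ)) * (FN.card * FQ.card) := by ring
      _ ≤ (1 + ε) * (FN.card * FQ.card) := by
          apply mul_le_mul_of_nonneg_right hδ2 (by positivity)
      _ = (1 + ε) * F.card := by rw [hFc]; push_cast; ring

/-- subgroups of amenable groups -/
theorem Amenable.sub {G H : Type} [Group G] [Group H] (f : G →* H) (hf : Function.Injective f)
    (hH : Amenable H) : Amenable G := by
  classical
  intro S ε hε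
  obtain ⟨F, hF, hFc⟩ := hH (S.image f) ε hε
  -- the left cosets of the image
  let K : Subgroup H := f.range
  let co : H → H ⧸ K := QuotientGroup.mk
  have hco : ∀ (h : H) (g : G), co (h * f g) = co h := by
    intro h g
    refine (QuotientGroup.eq.2 ?_).symm
    rw [inv_mul_cancel_left]
    exact ⟨g, rfl⟩
  set P : Finset H := (F ×ˢ S.image f).image fun p => p.1 * p.2 with hP
  have hPc : (P.card : ℝ) ≤ (1 + ε) * F.card := by
    rw [set_eq, Set.ncard_coe_finset] at hFc
    exact hFc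
  have hPco : ∀ p ∈ P, co p ∈ F.image co := by
    intro p hp
    obtain ⟨⟨x, y⟩, hxy, rfl⟩ := Finset.mem_image.1 hp
    obtain ⟨hx, hy⟩ := Finset.mem_product.1 hxy
    obtain ⟨s, _, rfl⟩ := Finset.mem_image.1 hy
    show co (x * f s) ∈ _
    rw [hco]
    exact Finset.mem_image_of_mem co hx
  have h1 : P.card = ∑ c ∈ F.image co, (P.filter fun p => co p = c).card :=
    Finset.card_eq_sum_card_fiberwise hPco
  have h2 : F.card = ∑ c ∈ F.image co, (F.filter fun p => co p = c).card :=
    Finset.card_eq_sum_card_fiberwise fun p hp => Finset.mem_image_of_mem co hp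
  obtain ⟨c, hc, hle⟩ : ∃ c ∈ F.image co, ((P.filter fun p => co p = c).card : ℝ) ≤
      (1 + ε) * (F.filter fun p => co p = c).card := by
    apply Finset.exists_le_of_sum_le (hF.image co)
    rw [← Finset.mul_sum]
    have e1 : ∑ c ∈ F.image co, ((P.filter fun p => co p = c).card : ℝ) = P.card := by
      rw [h1]; push_cast; rfl
    have e2 : ∑ c ∈ F.image co, ((F.filter fun p => co p = c).card : ℝ) = F.card := by
      conv_rhs => rw [h2]
      push_cast; rfl
    rw [e1, e2]
    exact hPc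
  obtain ⟨h0, hh0, rfl⟩ := Finset.mem_image.1 hc
  set F0 : Finset H := F.filter fun p => co p = co h0 with hF0
  have hex : ∀ x ∈ F0, ∃ g : G, f g = h0⁻¹ * x := by
    intro x hx
    have h3 : co x = co h0 := (Finset.mem_filter.1 hx).2
    obtain ⟨g, hg⟩ : h0⁻¹ * x ∈ K := QuotientGroup.eq.1 h3.symm
    exact ⟨g, hg⟩
  let F' : Finset G := F0.preimage (fun g => h0 * f g)
    (fun a _ b _ h => hf (mul_left_cancel h))
  have hmem : ∀ g, g ∈ F' ↔ h0 * f g ∈ F0 := fun g => Finset.mem_preimage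
  have hcard : F'.card = F0.card := by
    refine Finset.card_bij (fun g _ => h0 * f g) (fun g hg => (hmem g).1 hg)
      (fun a _ b _ h => hf (mul_left_cancel h)) ?_
    intro x hx
    obtain ⟨g, hg⟩ := hex x hx
    have e : h0 * f g = x := by rw [hg, mul_inv_cancel_left]
    exact ⟨g, (hmem g).2 (by rw [e]; exact hx), e⟩
  refine ⟨F', ?_, ?_⟩
  · rw [← Finset.card_pos, hcard, Finset.card_pos]
    exact ⟨h0, Finset.mem_filter.2 ⟨hh0, rfl⟩⟩
  · rw [hcard]
    refine le_trans ?_ hle
    rw [set_eq, Set.ncard_coe_finset, Nat.cast_le]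
    refine Finset.card_le_card_of_injOn (fun g => h0 * f g) ?_
      (fun a _ b _ h => hf (mul_left_cancel h))
    intro g hg
    rw [Finset.mem_coe] at hg
    obtain ⟨⟨a, s⟩, has, rfl⟩ := Finset.mem_image.1 hg
    obtain ⟨ha, hs⟩ := Finset.mem_product.1 has
    have ha' := (hmem a).1 ha
    obtain ⟨ha1, ha2⟩ := Finset.mem_filter.1 ha'
    rw [Finset.mem_coe, Finset.mem_filter]
    show h0 * f (a * s) ∈ P ∧ co (h0 * f (a * s)) = co h0
    refine ⟨?_, hco _ _⟩
    rw [map_mul, ← mul_assoc]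
    exact Finset.mem_image.2 ⟨(h0 * f a, f s),
      Finset.mem_product.2 ⟨ha1, Finset.mem_image_of_mem f hs⟩, rfl⟩

/-- a group is amenable if its finitely generated subgroups are -/
theorem Amenable.loc {G : Type} [Group G] (h : ∀ K : Subgroup G, K.FG → Amenable K) :
    Amenable G := by
  classical
  intro S ε hε
  set K : Subgroup G := Subgroup.closure (S : Set G) with hK
  have hSK : ∀ s ∈ S, s ∈ K := fun s hs => Subgroup.subset_closure hs
  let S' : Finset K := S.attach.image fun s => (⟨s.1, hSK s.1 s.2⟩ : K)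
  obtain ⟨F, hF, hFc⟩ := h K ⟨S, rfl⟩ S' ε hε
  refine ⟨F.map ⟨Subtype.val, Subtype.val_injective⟩, by simpa using hF, ?_⟩
  rw [Finset.card_map]
  refine le_trans ?_ hFc
  rw [Nat.cast_le]
  rw [← Set.ncard_image_of_injective _ (Subtype.val_injective : Function.Injective
    (Subtype.val : K → G))]
  apply Set.ncard_le_ncard
  · rintro g ⟨f, hf, s, hs, rfl⟩
    obtain ⟨f', hf', rfl⟩ := Finset.mem_map.1 hf
    exact ⟨f' * ⟨s, hSK s hs⟩, ⟨f', hf', ⟨s, hSK s hs⟩,
      Finset.mem_image.2 ⟨⟨s, hs⟩, Finset.mem_attach _ _, rfl⟩, rfl⟩, rfl⟩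
  · apply Set.Finite.image
    rw [set_eq]
    exact Finset.finite_toSet _

open Pointwise in
theorem card_pow_le {G : Type} [CommGroup G] [DecidableEq G] (S : Finset G) (m : ℕ) :
    (S ^ m).card ≤ (m + 1) ^ S.card := by
  classical
  have key : ∀ m : ℕ, ∀ x ∈ S ^ m, ∃ f : {s // s ∈ S} → ℕ, (∀ s, f s ≤ m) ∧
      ∏ s : {s // s ∈ S}, (s : G) ^ f s = x := by
    intro m
    induction m with
    | zero =>
      intro x hx
      rw [pow_zero, Finset.mem_one] at hx
      exact ⟨fun _ => 0, fun _ => le_rfl, by simp [hx]⟩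
    | succ m ih =>
      intro x hx
      rw [pow_succ, Finset.mem_mul] at hx
      obtain ⟨a, ha, b, hb, rfl⟩ := hx
      obtain ⟨f, hf, rfl⟩ := ih a ha
      refine ⟨fun s => f s + if s = ⟨b, hb⟩ then 1 else 0, fun s => ?_, ?_⟩
      · have := hf s
        dsimp only
        split_ifs <;> omega
      · simp only [pow_add, Finset.prod_mul_distrib]
        congr 1
        rw [Finset.prod_eq_single ⟨b, hb⟩]
        · simp
        · intro s _ hs
          rw [if_neg hs, pow_zero]
        · intro h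
          exact absurd (Finset.mem_univ _) h
  have h2 : S ^ m ⊆ (Finset.univ : Finset ({s // s ∈ S} → Fin (m + 1))).image
      (fun f => ∏ s : {s // s ∈ S}, (s : G) ^ (f s : ℕ)) := by
    intro x hx
    obtain ⟨f, hf, hx⟩ := key m x hx
    rw [Finset.mem_image]
    exact ⟨fun s => ⟨f s, Nat.lt_succ_of_le (hf s)⟩, Finset.mem_univ _, hx⟩
  calc (S ^ m).card ≤ _ := Finset.card_le_card h2
    _ ≤ (Finset.univ : Finset ({s // s ∈ S} → Fin (m + 1))).card := Finset.card_image_le
    _ = (m + 1) ^ S.card := by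
      rw [Finset.card_univ, Fintype.card_fun, Fintype.card_fin, Fintype.card_coe]

open Pointwise in
/-- abelian groups are amenable -/
theorem amenable_comm (G : Type) [CommGroup G] : Amenable G := by
  classical
  intro S ε hε
  set S' : Finset G := insert 1 S with hS'
  have hne : ∀ m : ℕ, (S' ^ m).Nonempty := fun m => (Finset.insert_nonempty 1 S).pow
  by_contra hcon
  push Not at hcon
  have h1 : ∀ m : ℕ, (1 + ε) ^ m ≤ ((S' ^ m).card : ℝ) := by
    intro m
    induction m with
    | zero => simp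
    | succ m ih =>
      have h2 := hcon (S' ^ m) (hne m)
      have h3 : (Set.ncard {g : G | ∃ f ∈ S' ^ m, ∃ s ∈ S, g = f * s} : ℝ) ≤
          ((S' ^ (m + 1)).card : ℝ) := by
        rw [set_eq, Set.ncard_coe_finset, Nat.cast_le]
        apply Finset.card_le_card
        intro g hg
        obtain ⟨⟨a, s⟩, has, rfl⟩ := Finset.mem_image.1 hg
        obtain ⟨ha, hs⟩ := Finset.mem_product.1 has
        rw [pow_succ]
        exact Finset.mul_mem_mul ha (Finset.mem_insert_of_mem hs)
      have h4 : (0 : ℝ) < 1 + ε := by linarith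
      calc (1 + ε) ^ (m + 1) = (1 + ε) * (1 + ε) ^ m := by ring
        _ ≤ (1 + ε) * ((S' ^ m).card : ℝ) := by
          exact mul_le_mul_of_nonneg_left ih h4.le
        _ ≤ _ := by linarith
  have h5 : ∀ m : ℕ, (1 + ε) ^ m ≤ ((m : ℝ) + 1) ^ S'.card := by
    intro m
    refine (h1 m).trans ?_
    exact_mod_cast card_pow_le S' m
  have h6 := tendsto_pow_const_div_const_pow_of_one_lt S'.card (show (1 : ℝ) < 1 + ε by linarith)
  have h7 : ∀ᶠ n : ℕ in Filter.atTop, (n : ℝ) ^ S'.card / (1 + ε) ^ n < 1 / (1 + ε) := by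
    apply h6.eventually_lt_const
    positivity
  obtain ⟨N, hN⟩ := Filter.eventually_atTop.1 h7
  have h8 := hN (N + 1) (Nat.le_succ N)
  have h9 := h5 N
  have h10 : (0 : ℝ) < 1 + ε := by linarith
  rw [div_lt_div_iff₀ (by positivity) h10, pow_succ] at h8
  push_cast at h8
  nlinarith

theorem Amenable.prod {G H : Type} [Group G] [Group H] (hG : Amenable G) (hH : Amenable H) :
    Amenable (G × H) := by
  refine Amenable.ext (MonoidHom.snd G H) Prod.snd_surjective ?_ hH
  refine Amenable.sub ((MonoidHom.fst G H).comp (MonoidHom.snd G H).ker.subtype) ?_ hG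
  rintro ⟨⟨a, b⟩, hb⟩ ⟨⟨a', b'⟩, hb'⟩ h
  have e1 : b = 1 := hb
  have e2 : b' = 1 := hb'
  have e3 : a = a' := h
  subst e1 e2 e3
  rfl

theorem Amenable.semi {G : Type} [Group G] (hG : Amenable G)
    (φ : Multiplicative ℤ →* MulAut G) : Amenable (G ⋊[φ] Multiplicative ℤ) := by
  refine Amenable.ext (SemidirectProduct.rightHom (φ := φ)) SemidirectProduct.rightHom_surjective
    ?_ (amenable_comm _)
  let f : (SemidirectProduct.rightHom (φ := φ)).ker →* G :=
    { toFun := fun x => x.1.left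
      map_one' := rfl
      map_mul' := by
        rintro ⟨x, hx⟩ ⟨y, hy⟩
        have e1 : x.right = 1 := hx
        show (x * y).left = x.left * y.left
        rw [SemidirectProduct.mul_left, e1, map_one]
        rfl }
  refine Amenable.sub f ?_ hG
  rintro ⟨x, hx⟩ ⟨y, hy⟩ h
  have e1 : x.right = 1 := hx
  have e2 : y.right = 1 := hy
  have e3 : x.left = y.left := h
  exact Subtype.ext (SemidirectProduct.ext e3 (by rw [e1, e2]))

end Pool.Agent.H13.AA
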