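import Pool.Agent.H13.L.S8.TH107.AT.Ore
import Pool.Agent.H13.L.Rf72.W656.VC4
import Pool.Agent.H13.L.R3da.Rs.MP_0f25e6_al.CoamenableSubgroups
import Pool.Agent.H13.AA.Fol

/-!
Amenable groups: integrality if the elements of the group algebra are regular, and zero divisors
over the integers if not.
-/

set_option autoImplicit false
set_option linter.unusedSectionVars false

open scoped InnerProductSpace ENNReal Pointwise
open Filter Topology

namespace Pool.Agent.H13.AA

open Pool.Agent.H80R2
open Pool.Agent.H80R2.BC (L2 GMat vdim IsTr LInv Equi act kerA)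
open Pool.Agent.H812R3
open Pool.Agent.W656.VA
open Pool.Agent.TH107.AT
open Pool.Agent.TH714.PF (Fol)

variable {ι κ μ G : Type} [Group G] [Fintype ι] [Fintype κ] [Fintype μ]

/-- all nonzero elements of the complex group algebra are regular -/
def Reg (G : Type) [Group G] : Prop := ∀ a : G →₀ ℂ, a ≠ 0 → vdim (kerA (m1 a)) ≤ 0

theorem mul_coeff {R : Type} [CommRing R] (x y : MonoidAlgebra R G) (g : G) :
    (x * y).coeff g = x.coeff.sum fun h c => c * y.coeff (h⁻¹ * g) :=
  MonoidAlgebra.coeff_mul_apply_left x y g

theorem Reg.nzd (hG : Reg G) : NoZeroDivisors (MonoidAlgebra ℂ G) := by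
  refine ⟨fun {x y} h => ?_⟩
  by_contra hcon
  push Not at hcon
  obtain ⟨hx, hy⟩ := hcon
  have hx' : x.coeff ≠ 0 := fun h0 => hx (MonoidAlgebra.coeff_eq_zero.1 h0)
  have hy' : y.coeff ≠ 0 := fun h0 => hy (MonoidAlgebra.coeff_eq_zero.1 h0)
  have h1 : Summable fun g => ‖y.coeff g‖ ^ 2 := by
    apply summable_of_hasFiniteSupport
    refine y.coeff.hasFiniteSupport.subset ?_
    intro g hg h0
    exact hg (by simp only [h0, norm_zero]; norm_num)
  have h2 := vdim_pos x.coeff (fun g => y.coeff g) h1 (fun h0 => hy' (by
    ext g
    exact congrFun h0 g)) (fun g => by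
      rw [← mul_coeff, h]
      rfl)
  exact absurd (hG _ hx') (not_le.2 h2)

theorem ra_inj' (hG : Reg G) {u : MonoidAlgebra ℂ G} (hu : u ≠ 0)
    (φ : L2 (κ × G)) (k : κ) (h : ∀ g, ra u (fun h => φ (k, h)) g = 0) (g : G) :
    φ (k, g) = 0 := by
  have hinj : Function.Injective (fun p : Unit × G => ((k, p.2) : κ × G)) := by
    rintro ⟨⟨⟩, a⟩ ⟨⟨⟩, b⟩ hab
    simp only [Prod.mk.injEq, true_and] at hab
    rw [hab]
  have h1 : KP.pull _ hinj φ ∈ kerA (m1 u.coeff) := by
    rintro ⟨⟩ x
    rw [act_m1]
    have h2 := h x
    rw [ra_apply] at h2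
    exact h2
  have h3 := eq_bot_of_vdim (isClosed_kerA (m1 u.coeff)) (linv_kerA (m1 u.coeff))
    (hG _ (fun h0 => hu (MonoidAlgebra.coeff_eq_zero.1 h0)))
  rw [h3, Submodule.mem_bot] at h1
  have h4 : KP.pull _ hinj φ ((), g) = 0 := by rw [h1]; rfl
  exact h4

/-- **integrality** over amenable groups whose nonzero elements are regular -/
theorem integral_reg (hG : Reg G) (hF : Fol G) (n : ℕ) :
    ∀ (κ : Type) [Fintype κ] (A : Matrix κ (Fin n) (MonoidAlgebra ℂ G)),
      ∃ z : ℤ, vdim (kr (mop A)) = z := by
  have hnz : NoZeroDivisors (MonoidAlgebra ℂ G) := hG.nzd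
  induction n with
  | zero =>
    intro κ _ A
    refine ⟨0, ?_⟩
    have h1 := vdim_nonneg (kr (mop A))
    have h2 := vdim_le_card (kr (mop A))
    rw [Fintype.card_fin] at h2
    push_cast at h2 ⊢
    linarith
  | succ n ih =>
    intro κ _ A
    by_cases h0 : ∀ k, A k (Fin.last n) = 0
    · obtain ⟨z, hz⟩ := ih κ (Matrix.of fun k (i : Fin n) => A k i.castSucc)
      refine ⟨z + 1, ?_⟩
      rw [zero_col A h0, hz]
      push_cast
      rfl
    · push Not at h0
      obtain ⟨k0, hk0⟩ := h0
      set p := A k0 (Fin.last n) with hp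
      choose u v hu huv using fun k => ore hnz hF p (A k (Fin.last n)) hk0
      let B : Matrix κ (Fin (n + 1)) (MonoidAlgebra ℂ G) :=
        Matrix.of fun k i => u k * A k i - v k * A k0 i
      have hB : ∀ k, B k (Fin.last n) = 0 := by
        intro k
        change u k * A k (Fin.last n) - v k * A k0 (Fin.last n) = 0
        rw [huv, sub_self]
      let R : Matrix Unit (Fin (n + 1)) (MonoidAlgebra ℂ G) := Matrix.of fun _ i => A k0 i
      obtain ⟨z, hz⟩ := ih κ (Matrix.of fun k (i : Fin n) => B k i.castSucc)
      have hK := zero_col B hB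
      rw [hz] at hK
      have hBx : ∀ (x : L2 (Fin (n + 1) × G)) (k : κ) (g : G),
          ∑ i, ra (B k i) (fun h => x (i, h)) g =
            ra (u k) (fun h => mop A x (k, h)) g - ra (v k) (fun h => mop R x ((), h)) g := by
        intro x k g
        have e1 : (fun h => mop A x (k, h)) = ∑ i, ra (A k i) (fun h => x (i, h)) := by
          funext h
          rw [mop_apply, Finset.sum_apply]
        have e2 : (fun h => mop R x ((), h)) = ∑ i, ra (A k0 i) (fun h => x (i, h)) := by
          funext h
          rw [mop_apply, Finset.sum_apply]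
          rfl
        rw [e1, e2, map_sum, map_sum, Finset.sum_apply, Finset.sum_apply,
          ← Finset.sum_sub_distrib]
        refine Finset.sum_congr rfl fun i _ => ?_
        change ra (u k * A k i - v k * A k0 i) _ g = _
        rw [map_sub, map_mul, map_mul]
        rfl
      have hAB : kr (mop A) = kr (mop B) ⊓ kr (mop R) := by
        ext x
        rw [Submodule.mem_inf]
        constructor
        · intro hx
          have hx' := (mem_kr _ _).1 hx
          have hR : mop R x = 0 := by
            ext ⟨⟨⟩, g⟩
            rw [mop_apply]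
            exact (mem_kr_mop A x).1 hx k0 g
          refine ⟨(mem_kr_mop B x).2 fun k g => ?_, (mem_kr _ _).2 hR⟩
          rw [hBx, hx', hR]
          have e : (fun h => (0 : L2 (κ × G)) (k, h)) = 0 := rfl
          have e' : (fun h => (0 : L2 (Unit × G)) ((), h)) = 0 := rfl
          rw [e, e', map_zero, map_zero]
          simp
        · rintro ⟨hx1, hx2⟩
          have hR := (mem_kr _ _).1 hx2
          rw [mem_kr]
          ext ⟨k, g⟩
          apply ra_inj' hG (hu k) (mop A x) k
          intro g
          have h3 := (mem_kr_mop B x).1 hx1 k g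
          rw [hBx, hR] at h3
          have e' : (fun h => (0 : L2 (Unit × G)) ((), h)) = 0 := rfl
          rw [e', map_zero] at h3
          simpa using h3
      have hrank := vdim_rank (isClosed_kr (mop B)) (linv_kr (equi_mop B)) (mop R) (equi_mop R)
      rw [← hAB] at hrank
      -- the image is dense
      let Ec : Matrix (Fin (n + 1)) Unit (MonoidAlgebra ℂ G) :=
        Matrix.of fun i _ => if i = Fin.last n then 1 else 0
      have hBE : B * Ec = 0 := by
        ext1 k j
        rw [Matrix.mul_apply, Finset.sum_eq_single (Fin.last n)]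
        · rw [hB, zero_mul]; rfl
        · intro i _ hi
          change B k i * (if i = Fin.last n then 1 else 0) = 0
          rw [if_neg hi, mul_zero]
        · intro h; exact absurd (Finset.mem_univ _) h
      have hRE : R * Ec = Matrix.of fun _ _ => p := by
        ext1 k j
        rw [Matrix.mul_apply, Finset.sum_eq_single (Fin.last n)]
        · change A k0 (Fin.last n) * (if Fin.last n = Fin.last n then 1 else 0) = p
          rw [if_pos rfl, mul_one]
        · intro i _ hi
          change A k0 i * (if i = Fin.last n then 1 else 0) = 0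
          rw [if_neg hi, mul_zero]
        · intro h; exact absurd (Finset.mem_univ _) h
      have htop : IsClosed ((⊤ : Submodule ℂ (L2 (Unit × G))) : Set (L2 (Unit × G))) :=
        isClosed_univ
      have hge := vdim_inj_le (K := (⊤ : Submodule ℂ (L2 (Unit × G)))) htop
        (fun _ _ _ _ _ => trivial) (mop (R * Ec)) (equi_mop _)
        (R := ((kr (mop B)).map
          (mop R : L2 (Fin (n + 1) × G) →ₗ[ℂ] L2 (Unit × G))).topologicalClosure)
        (Submodule.isClosed_topologicalClosure _)
        (by
          intro x _
          apply Submodule.le_topologicalClosure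
          refine ⟨mop Ec x, ?_, ?_⟩
          · change mop B (mop Ec x) = 0
            rw [← ContinuousLinearMap.comp_apply, ← mop_mul, hBE]
            ext ⟨k, g⟩
            rw [mop_apply]
            change ∑ i, ra (0 : MonoidAlgebra ℂ G) _ g = 0
            simp
          · rw [mop_mul]; rfl)
        (by
          intro x _ hx
          ext ⟨⟨⟩, g⟩
          apply ra_inj' hG hk0 x ()
          intro g
          have h3 := congrArg (fun f : L2 (Unit × G) => f ((), g)) hx
          simp only [mop_apply, hRE] at h3
          simpa using h3)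
      rw [vdim_top] at hge
      have hle := vdim_le_card ((kr (mop B)).map
          (mop R : L2 (Fin (n + 1) × G) →ₗ[ℂ] L2 (Unit × G))).topologicalClosure
      rw [Fintype.card_unit] at hge hle
      refine ⟨z, ?_⟩
      push_cast at hge hle
      linarith



end Pool.Agent.H13.AA
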