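import Pool.Agent.H13.AA.Mac
import Pool.Agent.H13.AA.Fol

/-!
Classes of groups closed under subgroups, products of two groups, directed unions and semidirect
products with `ℤ`.
-/

set_option autoImplicit false
set_option linter.unusedSectionVars false

namespace Pool.Agent.H13.AA

open Pool.Agent.TH25.AD

/-- a class of torsion-free groups closed under subgroups, products of two groups, directed unions
and semidirect products with `ℤ` -/
structure Cl (C : (G : Type) → [Group G] → Prop) : Prop where
  tf : ∀ (G : Type) [Group G], C G → ∀ g : G, ∀ n : ℕ, 0 < n → g ^ n = 1 → g = 1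
  sub : ∀ (G H : Type) [Group G] [Group H] (f : G →* H), Function.Injective f → C H → C G
  prod : ∀ (G H : Type) [Group G] [Group H], C G → C H → C (G × H)
  union : ∀ (G : Type) [Group G], (∀ K : Subgroup G, K.FG → C K) → C G
  sd : ∀ (G : Type) [Group G] (s : MulAut G), C G →
    C (G ⋊[zpowersHom (MulAut G) s] Multiplicative ℤ)

namespace Cl

variable {C : (G : Type) → [Group G] → Prop}

theorem triv (hC : Cl C) {G : Type} [Group G] (hG : C G) (T : Type) [Group T] [Subsingleton T] :
    C T :=
  hC.sub T G 1 (fun _ _ _ => Subsingleton.elim _ _) hG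

theorem int (hC : Cl C) {G : Type} [Group G] (hG : C G) : C (Multiplicative ℤ) := by
  have h1 := hC.sd G 1 hG
  exact hC.sub _ _ SemidirectProduct.inr SemidirectProduct.inr_injective h1

theorem piFin (hC : Cl C) {G₀ : Type} [Group G₀] (h₀ : C G₀) (n : ℕ) :
    ∀ (G : Fin n → Type) [∀ i, Group (G i)], (∀ i, C (G i)) → C (∀ i, G i) := by
  induction n with
  | zero =>
    intro G _ _
    exact hC.triv h₀ _
  | succ n ih =>
    intro G _ hG
    have h1 := ih (fun i => G i.succ) (fun i => hG i.succ)
    refine hC.sub _ _ ((Pi.evalMonoidHom G 0).prod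
      (MonoidHom.pi fun i : Fin n => Pi.evalMonoidHom G i.succ)) ?_ (hC.prod _ _ (hG 0) h1)
    intro x y h
    have e1 := (Prod.ext_iff.1 h).1
    have e2 := (Prod.ext_iff.1 h).2
    funext i
    refine Fin.cases ?_ (fun j => ?_) i
    · exact e1
    · exact congrFun e2 j

theorem pi (hC : Cl C) {G₀ : Type} [Group G₀] (h₀ : C G₀) (I : Type) [Finite I]
    (G : I → Type) [∀ i, Group (G i)] (hG : ∀ i, C (G i)) : C (∀ i, G i) := by
  obtain ⟨n, ⟨e⟩⟩ := Finite.exists_equiv_fin I
  have h1 := hC.piFin h₀ n (fun j => G (e.symm j)) (fun j => hG _)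
  refine hC.sub _ _ (MonoidHom.pi fun j : Fin n => Pi.evalMonoidHom G (e.symm j)) ?_ h1
  intro x y h
  funext i
  have := congrFun h (e i)
  simp only [MonoidHom.pi_apply, Pi.evalMonoidHom_apply] at this
  rw [e.symm_apply_apply] at this
  exact this

end Cl

/-! ### functions with finitely many values -/

/-- the functions with finitely many values -/
def FV (L : Type) [Group L] : Subgroup (ℤ → L) where
  carrier := {a | (Set.range a).Finite}
  one_mem' := by
    refine (Set.finite_singleton (1 : L)).subset ?_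
    rintro _ ⟨i, rfl⟩
    exact rfl
  mul_mem' := by
    intro a b ha hb
    refine ((ha.prod hb).image fun p : L × L => p.1 * p.2).subset ?_
    rintro _ ⟨i, rfl⟩
    exact ⟨(a i, b i), ⟨⟨i, rfl⟩, ⟨_, rfl⟩⟩, rfl⟩
  inv_mem' := by
    intro a ha
    refine (ha.image fun x : L => x⁻¹).subset ?_
    rintro _ ⟨i, rfl⟩
    exact ⟨a i, ⟨_, rfl⟩, rfl⟩

theorem FV.shift_mem {L : Type} [Group L] {a : ℤ → L} (ha : a ∈ FV L) (c : ℤ) :
    (fun i => a (i + c)) ∈ FV L := by
  refine Set.Finite.subset (show (Set.range a).Finite from ha) ?_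
  rintro _ ⟨i, rfl⟩
  exact ⟨i + c, rfl⟩

theorem Cl.fv {C : (G : Type) → [Group G] → Prop} (hC : Cl C) {L : Type} [Group L] (hL : C L) :
    C (FV L) := by
  classical
  apply hC.union
  intro K hK
  obtain ⟨s, hs⟩ := hK
  -- the tuple of the values of the generators
  let τ : ℤ → ({x // x ∈ s} → L) := fun i x => (x.1 : ℤ → L) i
  have hτ : (Set.range τ).Finite := by
    have h1 : {f : {x // x ∈ s} → L | ∀ x, f x ∈ Set.range ((x.1 : FV L) : ℤ → L)}.Finite :=
      Set.Finite.pi' (t := fun x : {x // x ∈ s} => Set.range ((x.1 : FV L) : ℤ → L))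
        fun x => x.1.2
    refine h1.subset ?_
    rintro _ ⟨i, rfl⟩ x
    exact ⟨i, rfl⟩
  have : Finite (Set.range τ) := hτ
  let r : Set.range τ → ℤ := fun y => y.2.choose
  have hr : ∀ y : Set.range τ, τ (r y) = y.1 := fun y => y.2.choose_spec
  have key : ∀ x ∈ K, ∀ i j, τ i = τ j → (x : ℤ → L) i = (x : ℤ → L) j := by
    intro x hx
    rw [← hs] at hx
    induction hx using Subgroup.closure_induction with
    | mem y hy =>
      intro i j hij
      exact congrFun hij ⟨y, hy⟩
    | one => intro i j _; rfl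
    | mul y z _ _ hy hz =>
      intro i j hij
      show (y : ℤ → L) i * (z : ℤ → L) i = (y : ℤ → L) j * (z : ℤ → L) j
      rw [hy i j hij, hz i j hij]
    | inv y _ hy =>
      intro i j hij
      show ((y : ℤ → L) i)⁻¹ = ((y : ℤ → L) j)⁻¹
      rw [hy i j hij]
  have h1 : C (Set.range τ → L) := hC.pi hL (Set.range τ) (fun _ => L) (fun _ => hL)
  let f : K →* (Set.range τ → L) :=
    { toFun := fun x y => ((x : FV L) : ℤ → L) (r y)
      map_one' := rfl
      map_mul' := fun _ _ => rfl }
  refine hC.sub _ _ f ?_ h1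
  intro x y h
  apply Subtype.ext
  apply Subtype.ext
  funext i
  have e1 := congrFun h ⟨τ i, i, rfl⟩
  have e2 : τ (r ⟨τ i, i, rfl⟩) = τ i := hr ⟨τ i, i, rfl⟩
  have e3 := key x.1 x.2 _ _ e2
  have e4 := key y.1 y.2 _ _ e2
  change ((x : FV L) : ℤ → L) (r ⟨τ i, i, rfl⟩) = ((y : FV L) : ℤ → L) (r ⟨τ i, i, rfl⟩) at e1
  rw [← e3, e1, e4]

/-- the shift of functions with finitely many values -/
def shs (L : Type) [Group L] : MulAut (FV L) where
  toFun k := ⟨fun i => k.1 (i + -1), FV.shift_mem k.2 _⟩
  invFun k := ⟨fun i => k.1 (i + 1), FV.shift_mem k.2 _⟩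
  left_inv k := by
    apply Subtype.ext
    funext i
    show k.1 (i + 1 + -1) = k.1 i
    ring_nf
  right_inv k := by
    apply Subtype.ext
    funext i
    show k.1 (i + -1 + 1) = k.1 i
    ring_nf
  map_mul' _ _ := rfl

theorem shs_zpow (L : Type) [Group L] (n : ℤ) (k : FV L) (i : ℤ) :
    (((shs L) ^ n) k).1 i = k.1 (i - n) := by
  induction n using Int.induction_on generalizing i with
  | zero => simp
  | succ n ih =>
    rw [add_comm, zpow_one_add, MulAut.mul_apply]
    show (((shs L) ^ (n : ℤ)) k).1 (i + -1) = _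
    rw [ih]
    ring_nf
  | pred n ih =>
    rw [sub_eq_add_neg, add_comm, zpow_add, zpow_neg_one, MulAut.mul_apply]
    have e : ∀ y : FV L, (((shs L)⁻¹) y).1 i = y.1 (i + 1) := fun y => rfl
    rw [e, ih]
    ring_nf

theorem Cl.ws {C : (G : Type) → [Group G] → Prop} (hC : Cl C) {L : Type} [Group L] (hL : C L) :
    C (Ws L) := by
  have h2 := hC.sd (FV L) (shs L) (hC.fv hL)
  refine hC.sub _ _
    { toFun := fun a : Ws L => (⟨⟨a.1.k, a.2⟩, Multiplicative.ofAdd a.1.n⟩ :
        (FV L) ⋊[zpowersHom (MulAut (FV L)) (shs L)] Multiplicative ℤ)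
      map_one' := ?_
      map_mul' := ?_ } ?_ h2
  · rfl
  · intro a b
    apply SemidirectProduct.ext
    · apply Subtype.ext
      funext i
      rw [SemidirectProduct.mul_left]
      show a.1.k i * b.1.k (i - a.1.n) = a.1.k i * (((zpowersHom (MulAut (FV L)) (shs L)
        (Multiplicative.ofAdd a.1.n)) ⟨b.1.k, b.2⟩ : FV L)).1 i
      rw [zpowersHom_apply, toAdd_ofAdd, shs_zpow]
    · rfl
  · intro a b h
    have e1 := congrArg SemidirectProduct.left h
    have e2 := congrArg SemidirectProduct.right h
    apply Subtype.ext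
    exact Wr.ext (congrArg Subtype.val e1) (Multiplicative.ofAdd.injective e2)

/-! ### a group with two elements which do not commute -/

/-- the fundamental group of the Klein bottle -/
abbrev Kb : Type := (Multiplicative ℤ) ⋊[zpowersHom (MulAut (Multiplicative ℤ))
  (MulEquiv.inv (Multiplicative ℤ))] Multiplicative ℤ

theorem Cl.kb {C : (G : Type) → [Group G] → Prop} (hC : Cl C) {G : Type} [Group G] (hG : C G) :
    C Kb := hC.sd _ _ (hC.int hG)

/-- two elements which do not commute -/
def kp : Kb := SemidirectProduct.inl (Multiplicative.ofAdd 1)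

/-- two elements which do not commute -/
def kq : Kb := SemidirectProduct.inr (Multiplicative.ofAdd 1)

theorem kpq : kp * kq ≠ kq * kp := by
  intro h
  have h1 := congrArg SemidirectProduct.left h
  rw [SemidirectProduct.mul_left, SemidirectProduct.mul_left] at h1
  have e1 : kp.left = Multiplicative.ofAdd (1 : ℤ) := rfl
  have e2 : kq.left = 1 := rfl
  have e3 : kq.right = Multiplicative.ofAdd (1 : ℤ) := rfl
  have e4 : kp.right = 1 := rfl
  rw [e1, e2, e3, e4] at h1
  have e5 : (zpowersHom (MulAut (Multiplicative ℤ)) (MulEquiv.inv (Multiplicative ℤ)))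
      (Multiplicative.ofAdd (1 : ℤ)) = MulEquiv.inv (Multiplicative ℤ) := by
    rw [zpowersHom_apply, toAdd_ofAdd, zpow_one]
  have e6 : (zpowersHom (MulAut (Multiplicative ℤ)) (MulEquiv.inv (Multiplicative ℤ))) 1 = 1 :=
    MonoidHom.map_one _
  rw [e5, e6] at h1
  have h2 : Multiplicative.ofAdd (1 : ℤ) * 1 = 1 * (Multiplicative.ofAdd (1 : ℤ))⁻¹ := h1
  rw [mul_one, one_mul] at h2
  have h3 : (1 : ℤ) = -1 := congrArg Multiplicative.toAdd h2
  norm_num at h3

/-- the group of the machine is in the class -/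
theorem Cl.hs {C : (G : Type) → [Group G] → Prop} (hC : Cl C) {G : Type} [Group G] (hG : C G) :
    C (Hs G Kb) := hC.ws (hC.prod _ _ hG (hC.kb hG))

/-! ### direct sums -/

/-- the direct sum of a family of groups -/
def DS {I : Type} (G : I → Type) [∀ i, Group (G i)] : Subgroup (∀ i, G i) where
  carrier := {a | {i | a i ≠ 1}.Finite}
  one_mem' := by
    refine Set.finite_empty.subset ?_
    intro i hi
    exact absurd rfl hi
  mul_mem' := by
    intro a b ha hb
    refine (Set.Finite.union ha hb).subset ?_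
    intro i hi
    by_contra hcon
    rw [Set.mem_union, not_or] at hcon
    have h1 : a i = 1 := not_not.1 hcon.1
    have h2 : b i = 1 := not_not.1 hcon.2
    exact hi (by rw [Pi.mul_apply, h1, h2, one_mul])
  inv_mem' := by
    intro a ha
    refine Set.Finite.subset ha ?_
    intro i hi h
    exact hi (by rw [Pi.inv_apply, h, inv_one])

theorem Cl.ds {C : (G : Type) → [Group G] → Prop} (hC : Cl C) {I : Type} (i₀ : I)
    (G : I → Type) [∀ i, Group (G i)] (hG : ∀ i, C (G i)) : C (DS G) := by
  classical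
  apply hC.union
  intro K hK
  obtain ⟨s, hs⟩ := hK
  set J : Set I := ⋃ x ∈ s, {i | ((x : DS G) : ∀ i, G i) i ≠ 1} with hJ
  have hJf : J.Finite := Set.Finite.biUnion s.finite_toSet fun x _ => x.2
  have : Finite J := hJf
  have key : ∀ x ∈ K, ∀ i, i ∉ J → ((x : DS G) : ∀ i, G i) i = 1 := by
    intro x hx
    rw [← hs] at hx
    induction hx using Subgroup.closure_induction with
    | mem y hy =>
      intro i hi
      by_contra hcon
      apply hi
      rw [hJ]
      exact Set.mem_biUnion hy hcon
    | one => intro i _; rfl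
    | mul y z _ _ hy hz =>
      intro i hi
      show (y : ∀ i, G i) i * (z : ∀ i, G i) i = 1
      rw [hy i hi, hz i hi, one_mul]
    | inv y _ hy =>
      intro i hi
      show ((y : ∀ i, G i) i)⁻¹ = 1
      rw [hy i hi, inv_one]
  have h1 : C (∀ j : J, G j) := hC.pi (hG i₀) J (fun j => G j) (fun j => hG j)
  let f : K →* (∀ j : J, G j) :=
    { toFun := fun x j => ((x : DS G) : ∀ i, G i) j
      map_one' := rfl
      map_mul' := fun _ _ => rfl }
  refine hC.sub _ _ f ?_ h1
  intro x y h
  apply Subtype.ext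
  apply Subtype.ext
  funext i
  by_cases hi : i ∈ J
  · exact congrFun h ⟨i, hi⟩
  · rw [key x.1 x.2 i hi, key y.1 y.2 i hi]

open Classical in
/-- the inclusion of a summand -/
noncomputable def DS.incl {I : Type} (G : I → Type) [∀ i, Group (G i)] (i : I) : G i →* DS G where
  toFun x := ⟨Pi.mulSingle i x, by
    refine (Set.finite_singleton i).subset ?_
    intro j hj
    by_contra hcon
    exact hj (Pi.mulSingle_eq_of_ne hcon x)⟩
  map_one' := by
    apply Subtype.ext
    exact Pi.mulSingle_one i
  map_mul' x y := by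
    apply Subtype.ext
    exact Pi.mulSingle_mul i x y

theorem DS.incl_injective {I : Type} (G : I → Type) [∀ i, Group (G i)] (i : I) :
    Function.Injective (DS.incl G i) := by
  classical
  intro x y h
  have := congrFun (congrArg Subtype.val h) i
  change (Pi.mulSingle i x : ∀ i, G i) i = (Pi.mulSingle i y : ∀ i, G i) i at this
  rwa [Pi.mulSingle_eq_same, Pi.mulSingle_eq_same] at this

end Pool.Agent.H13.AA
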