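import Pool.Agent.H13.L.S8.TH25.AD.A7

/-!
The lamp machine over the group of the functions with finitely many values.
-/

set_option autoImplicit false
set_option linter.unusedSectionVars false

open scoped InnerProductSpace ENNReal ComplexConjugate
open Filter Topology

namespace Pool.Agent.H13.AA

open Pool.Agent.W656.VA
open Pool.Agent.H80R2
open Pool.Agent.H80R2.BC (L2 GMat vdim IsTr LInv Equi act kerA pt vals Coef)
open Pool.Agent.H812R3
open Pool.Agent.TH25.AD

/-- the elements of the unrestricted wreath product with finitely many values -/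
def Ws (L : Type) [Group L] : Subgroup (Wr L) where
  carrier := {a | (Set.range a.k).Finite}
  one_mem' := by
    refine (Set.finite_singleton (1 : L)).subset ?_
    rintro _ ⟨i, rfl⟩
    exact rfl
  mul_mem' := by
    intro a b ha hb
    refine ((ha.prod hb).image fun p : L × L => p.1 * p.2).subset ?_
    rintro _ ⟨i, rfl⟩
    exact ⟨(a.k i, b.k (i - a.n)), ⟨⟨i, rfl⟩, ⟨_, rfl⟩⟩, rfl⟩
  inv_mem' := by
    intro a ha
    refine (ha.image fun x : L => x⁻¹).subset ?_
    rintro _ ⟨i, rfl⟩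
    exact ⟨a.k (i + a.n), ⟨_, rfl⟩, rfl⟩

section
variable {G W : Type} [Group G] [Group W]

/-- the group of the machine -/
abbrev Hs (G W : Type) [Group G] [Group W] : Type := ↥(Ws (G × W))

theorem mul_k' (a b : Hs G W) (i : ℤ) : (a * b).1.k i = a.1.k i * b.1.k (i - a.1.n) := rfl
theorem mul_n' (a b : Hs G W) : (a * b).1.n = a.1.n + b.1.n := rfl

theorem ext' {a b : Hs G W} (h1 : ∀ i, a.1.k i = b.1.k i) (h2 : a.1.n = b.1.n) : a = b :=
  Subtype.ext (Wr.ext (funext h1) h2)

/-- the subgroup of the lamps in `I` -/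
def DIs (G W : Type) [Group G] [Group W] (I : Set ℤ) : Subgroup (Hs G W) where
  carrier := {a | a.1.n = 0 ∧ (∀ i ∉ I, a.1.k i = 1) ∧ ∀ i, (a.1.k i).2 = 1}
  one_mem' := ⟨rfl, fun _ _ => rfl, fun _ => rfl⟩
  mul_mem' := by
    rintro a b ⟨h1, h2, h3⟩ ⟨k1, k2, k3⟩
    refine ⟨?_, ?_, ?_⟩
    · rw [mul_n', h1, k1, add_zero]
    · intro i hi
      rw [mul_k', h1, sub_zero, h2 i hi, k2 i hi, one_mul]
    · intro i
      rw [mul_k', Prod.snd_mul, h3, k3, one_mul]
  inv_mem' := by
    rintro a ⟨h1, h2, h3⟩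
    refine ⟨?_, ?_, ?_⟩
    · show (a.1⁻¹).n = 0
      rw [Wr.inv_n, h1, neg_zero]
    · intro i hi
      show (a.1⁻¹).k i = 1
      rw [Wr.inv_k, h1, add_zero, h2 i hi, inv_one]
    · intro i
      show ((a.1⁻¹).k i).2 = 1
      rw [Wr.inv_k, Prod.snd_inv, h3, inv_one]

/-- the shift -/
def ts (G W : Type) [Group G] [Group W] : Hs G W :=
  ⟨Wr.t, (Set.finite_singleton (1 : G × W)).subset (by rintro _ ⟨i, rfl⟩; exact rfl)⟩

open Classical in
/-- the element `g` of the machine -/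
noncomputable def gs (G : Type) {W : Type} [Group G] [Group W] (p : W) (S : Set ℕ) : Hs G W :=
  ⟨⟨fun i => (1, if ∃ n : ℕ, n ∉ S ∧ i = -(n : ℤ) then p else 1), 0⟩, by
    refine ((Set.finite_singleton ((1 : G), p)).insert 1).subset ?_
    rintro _ ⟨i, rfl⟩
    dsimp only
    split_ifs
    · right; rfl
    · left; rfl⟩

/-- the element `h` of the machine -/
noncomputable def hs (G : Type) {W : Type} [Group G] [Group W] (q : W) : Hs G W :=
  ⟨⟨fun i => (1, if i = 0 then q else 1), 0⟩, by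
    refine ((Set.finite_singleton ((1 : G), q)).insert 1).subset ?_
    rintro _ ⟨i, rfl⟩
    dsimp only
    split_ifs
    · right; rfl
    · left; rfl⟩

/-- the inclusion of `G` -/
noncomputable def incs (G W : Type) [Group G] [Group W] : G →* Hs G W where
  toFun x := ⟨⟨fun i => if i = 0 then (x, 1) else 1, 0⟩, by
    refine ((Set.finite_singleton (x, (1 : W))).insert 1).subset ?_
    rintro _ ⟨i, rfl⟩
    dsimp only
    split_ifs
    · right; rfl
    · left; rfl⟩
  map_one' := by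
    apply ext'
    · intro i
      show (if i = 0 then ((1 : G), (1 : W)) else 1) = 1
      split_ifs <;> rfl
    · rfl
  map_mul' x y := by
    apply ext'
    · intro i
      rw [mul_k']
      show (if i = 0 then (x * y, (1 : W)) else 1) =
        (if i = 0 then (x, 1) else 1) * (if i - 0 = 0 then (y, 1) else 1)
      rw [sub_zero]
      split_ifs
      · rw [Prod.mk_mul_mk, one_mul]
      · rw [one_mul]
    · rfl

theorem incs_k (x : G) (i : ℤ) : (incs G W x).1.k i = if i = 0 then (x, 1) else 1 := rfl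

theorem incs_inj : Function.Injective (incs G W) := by
  intro x y h
  have h1 := congrArg (fun a : Hs G W => (a.1.k 0).1) h
  simpa only [incs_k, if_pos] using h1

theorem incs_mem (x : G) : incs G W x ∈ DIs G W {0} := by
  refine ⟨rfl, ?_, ?_⟩
  · intro i hi
    rw [incs_k, if_neg (fun h => hi (by rw [h]; exact Set.mem_singleton _))]
  · intro i
    rw [incs_k]
    split_ifs <;> rfl

theorem conj_k' (n : ℤ) (a : Hs G W) (i : ℤ) :
    ((ts G W) ^ n * a * ((ts G W) ^ n)⁻¹).1.k i = a.1.k (i - n) := by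
  have e : ((ts G W) ^ n * a * ((ts G W) ^ n)⁻¹).1 = (Wr.t : Wr (G × W)) ^ n * a.1 *
      ((Wr.t : Wr (G × W)) ^ n)⁻¹ := by
    rw [Subgroup.coe_mul, Subgroup.coe_mul, Subgroup.coe_inv, Subgroup.coe_zpow]
    rfl
  rw [e, Wr.conj_k]

theorem conj_n' (n : ℤ) (a : Hs G W) :
    ((ts G W) ^ n * a * ((ts G W) ^ n)⁻¹).1.n = a.1.n := by
  have e : ((ts G W) ^ n * a * ((ts G W) ^ n)⁻¹).1 = (Wr.t : Wr (G × W)) ^ n * a.1 *
      ((Wr.t : Wr (G × W)) ^ n)⁻¹ := by
    rw [Subgroup.coe_mul, Subgroup.coe_mul, Subgroup.coe_inv, Subgroup.coe_zpow]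
    rfl
  rw [e, Wr.conj_n]

/-- the machine -/
noncomputable def machs (p q : W) (S : Set ℕ) (P : Submodule ℂ (L2 (Unit × Hs G W)))
    (hP : IsClosed (P : Set (L2 (Unit × Hs G W)))) (hloc : Loc (DIs G W {0}) P) :
    Mach (Hs G W) where
  f := ts G W
  g := gs G p S
  h := hs G q
  DI := DIs G W
  mono := fun hIJ a ha => ⟨ha.1, fun i hi => ha.2.1 i (fun h => hi (hIJ h)), ha.2.2⟩
  comm := by
    rintro I J hIJ a ⟨a1, a2, a3⟩ b ⟨b1, b2, b3⟩
    apply ext'
    · intro i
      rw [mul_k', mul_k', a1, b1, sub_zero]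
      by_cases hi : i ∈ I
      · rw [b2 i (fun h => Set.disjoint_left.1 hIJ hi h), one_mul, mul_one]
      · rw [a2 i hi, one_mul, mul_one]
    · rw [mul_n', mul_n', add_comm]
  triv := by
    rintro I J hIJ a ⟨a1, a2, a3⟩ ⟨b1, b2, b3⟩
    apply ext'
    · intro i
      show a.1.k i = 1
      by_cases hi : i ∈ I
      · exact b2 i (fun h => Set.disjoint_left.1 hIJ hi h)
      · exact a2 i hi
    · exact a1
  shift := by
    rintro n a ⟨a1, a2, a3⟩
    refine ⟨?_, ?_, ?_⟩
    · rw [conj_n', a1]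
    · intro i hi
      rw [conj_k']
      apply a2
      intro h
      apply hi
      rw [Set.mem_singleton_iff] at h ⊢
      omega
    · intro i
      rw [conj_k', a3]
  shift' := by
    rintro n a ⟨a1, a2, a3⟩
    refine ⟨?_, ?_, ?_⟩
    · rw [conj_n', a1]
    · intro i hi
      exact absurd (Set.mem_univ _) hi
    · intro i
      rw [conj_k', a3]
  gc := by
    rintro a ⟨a1, a2, a3⟩
    apply ext'
    · intro i
      rw [mul_k', mul_k', a1]
      show (gs G p S).1.k i * a.1.k (i - 0) = a.1.k i * (gs G p S).1.k (i - 0)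
      rw [sub_zero]
      apply Prod.ext
      · show 1 * (a.1.k i).1 = (a.1.k i).1 * 1
        rw [one_mul, mul_one]
      · rw [Prod.snd_mul, Prod.snd_mul, a3, one_mul, mul_one]
    · rw [mul_n', mul_n', add_comm]
  hc := by
    rintro a ⟨a1, a2, a3⟩
    apply ext'
    · intro i
      rw [mul_k', mul_k', a1]
      show (hs G q).1.k i * a.1.k (i - 0) = a.1.k i * (hs G q).1.k (i - 0)
      rw [sub_zero]
      apply Prod.ext
      · show 1 * (a.1.k i).1 = (a.1.k i).1 * 1
        rw [one_mul, mul_one]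
      · rw [Prod.snd_mul, Prod.snd_mul, a3, one_mul, mul_one]
    · rw [mul_n', mul_n', add_comm]
  P := P
  closed := hP
  loc := hloc

theorem gns_k (p q : W) (S : Set ℕ) (P : Submodule ℂ (L2 (Unit × Hs G W)))
    (hP : IsClosed (P : Set (L2 (Unit × Hs G W)))) (hloc : Loc (DIs G W {0}) P) (n i : ℤ) :
    ((machs p q S P hP hloc).gn n).1.k i = (gs G p S).1.k (i - n) := conj_k' n (gs G p S) i

theorem gns_n (p q : W) (S : Set ℕ) (P : Submodule ℂ (L2 (Unit × Hs G W)))
    (hP : IsClosed (P : Set (L2 (Unit × Hs G W)))) (hloc : Loc (DIs G W {0}) P) (n : ℤ) :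
    ((machs p q S P hP hloc).gn n).1.n = 0 := conj_n' n (gs G p S)

theorem gs_k_mem {p : W} {S : Set ℕ} {n : ℕ} (h : n ∈ S) : (gs G p S).1.k (0 - (n : ℤ)) = 1 := by
  classical
  show ((1 : G), if ∃ m : ℕ, m ∉ S ∧ (0 - (n : ℤ)) = -(m : ℤ) then p else 1) = 1
  rw [if_neg]
  · rfl
  · rintro ⟨m, hm, he⟩
    have : m = n := by omega
    rw [this] at hm
    exact hm h

theorem gs_k_not_mem {p : W} {S : Set ℕ} {n : ℕ} (h : n ∉ S) :
    (gs G p S).1.k (0 - (n : ℤ)) = (1, p) := by
  classical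
  show ((1 : G), if ∃ m : ℕ, m ∉ S ∧ (0 - (n : ℤ)) = -(m : ℤ) then p else 1) = (1, p)
  rw [if_pos]
  exact ⟨n, h, by ring⟩

theorem machs_good (p q : W) (S : Set ℕ) (P : Submodule ℂ (L2 (Unit × Hs G W)))
    (hP : IsClosed (P : Set (L2 (Unit × Hs G W)))) (hloc : Loc (DIs G W {0}) P) (n : ℕ)
    (hn : n ∈ S) : (machs p q S P hP hloc).gn n * (machs p q S P hP hloc).h =
      (machs p q S P hP hloc).h * (machs p q S P hP hloc).gn n := by
  apply ext'
  · intro i
    rw [mul_k', mul_k', gns_k, gns_n, gns_k]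
    show (gs G p S).1.k (i - n) * (hs G q).1.k (i - 0) = (hs G q).1.k i * (gs G p S).1.k (i - 0 - n)
    rw [sub_zero]
    by_cases hi : i = 0
    · rw [hi, gs_k_mem hn, one_mul, mul_one]
    · have : (hs G q).1.k i = 1 := by
        show ((1 : G), if i = 0 then q else 1) = 1
        rw [if_neg hi]
        rfl
      rw [this, one_mul, mul_one]
  · rw [mul_n', mul_n', add_comm]

theorem machs_bad {p q : W} (hpq : p * q ≠ q * p) (S : Set ℕ)
    (P : Submodule ℂ (L2 (Unit × Hs G W)))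
    (hP : IsClosed (P : Set (L2 (Unit × Hs G W)))) (hloc : Loc (DIs G W {0}) P) (n : ℕ)
    (hn : n ∉ S) : (machs p q S P hP hloc).gn n * (machs p q S P hP hloc).h ≠
      (machs p q S P hP hloc).h * (machs p q S P hP hloc).gn n := by
  intro h
  have h1 := congrArg (fun a : Hs G W => (a.1.k 0).2) h
  simp only [mul_k'] at h1
  rw [gns_k, gns_n, gns_k] at h1
  change ((gs G p S).1.k (0 - n) * (hs G q).1.k (0 - 0)).2 =
    ((hs G q).1.k 0 * (gs G p S).1.k (0 - 0 - n)).2 at h1
  rw [sub_zero, gs_k_not_mem hn] at h1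
  change p * (if (0 : ℤ) = 0 then q else 1) = (if (0 : ℤ) = 0 then q else 1) * p at h1
  rw [if_pos rfl] at h1
  exact hpq h1

theorem tf_Hs (hG : TF G) (hW : TF W) : TF (Hs G W) := by
  intro g n hn h
  apply Subtype.ext
  apply Wr.tf (tf_prod hG hW) g.1 n hn
  rw [← Subgroup.coe_pow, h]
  rfl

/-- **The values of the machine.** -/
theorem values {R : Subring ℂ} (hR : ∀ c ∈ R, conj c ∈ R) (hG : TF G) (hW : TF W) {p q : W}
    (hpq : p * q ≠ q * p) {ι κ : Type} [Fintype ι] [Fintype κ] (A : GMat κ ι G)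
    (T : GMat Unit ι G) (hA : Coef R A) (hT : Coef R T) (h : kerA A ⊓ kerA T = ⊥)
    (h1 : vdim (kerA A) < 1) (S : Set ℕ) [DecidablePred (· ∈ S)] :
    ∃ w : ℝ, HasSum (fun n : ℕ => if n ∈ S then (1 - vdim (kerA A)) ^ 2 * vdim (kerA A) ^ n else 0)
        w ∧ Val R (Hs G W) (w + 4 * (Fintype.card κ - Fintype.card ι + vdim (kerA A))) := by
  set A2 := BC.push (incs G W) A with hA2
  set T2 := BC.push (incs G W) T with hT2
  have hv : vdim (kerA A2) = vdim (kerA A) := vdim_push (incs G W) incs_inj A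
  have hbot : kerA A2 ⊓ kerA T2 = ⊥ := by
    rw [hA2, hT2, ← kerA_stack, ← push_stack]
    apply eq_bot_of_vdim (isClosed_kerA _) (linv_kerA _)
    rw [vdim_push (incs G W) incs_inj, kerA_stack, h, vdim_bot]
  have hsupp : ∀ (a : G →₀ ℂ), ∀ x ∈ (a.mapDomain (incs G W)).support, x ∈ DIs G W {0} := by
    classical
    intro a x hx
    have := Finsupp.mapDomain_support hx
    rw [Finset.mem_image] at this
    obtain ⟨y, _, rfl⟩ := this
    exact incs_mem y
  have hloc : Loc (DIs G W {0}) (lampP A2 T2) :=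
    loc_lampP _ (fun k i x hx => hsupp _ x hx) (fun k i x hx => hsupp _ x hx)
  set M := machs p q S (lampP A2 T2) (closed_lampP A2 T2) hloc with hM
  have hα : M.α = vdim (kerA A) := by
    rw [← hv]
    exact vdim_lampP A2 T2 hbot
  have hc1 := coef_push (incs G W) A hA
  have hc2 := coef_push (incs G W) T hT
  have d1 : Dfn R M.P 0 := dfn_lampP hc1 hc2 hbot
  have d2 : Dfn R M.Pᗮ (Fintype.card κ - Fintype.card ι + vdim (kerA A2)) :=
    dfn_lampP_orth hR hc1 hc2
  have d3 := (M.dfn_Sol d1 d2).val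
  have h3 := M.vdim_Sol (by rw [hα]; exact h1) S
    (fun n hn => machs_good p q S _ (closed_lampP A2 T2) hloc n hn) (by
      intro n hn k hk hc
      refine machs_bad hpq S _ (closed_lampP A2 T2) hloc n hn ?_
      have h4 := tf_Hs hG hW _ k hk hc
      have h5 := inv_mul_eq_one.1 h4
      exact h5.symm)
  rw [hα] at h3
  rw [hv] at d3
  exact ⟨vdim M.Sol, h3, d3⟩

end

end Pool.Agent.H13.AA
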