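import Pool.Agent.H13.AA.Am

/-!
Amenable groups: an integral element which is not regular gives zero divisors of the integral
group ring.
-/

set_option autoImplicit false
set_option linter.unusedSectionVars false

open scoped ENNReal Pointwise
open Filter Topology

namespace Pool.Agent.H13.AA

open Pool.Agent.Results.MP_0f25e6_al.CoamenableSubgroups (CoAmenable Regular kernelOn products)

variable {G : Type} [Group G]

theorem coamenable_bot (hG : Amenable G) : CoAmenable (⊥ : Subgroup G) := by
  classical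
  intro S ε hε
  obtain ⟨F, hF, hc⟩ := hG (S.image fun s => s⁻¹) ε hε
  let j : G → G ⧸ (⊥ : Subgroup G) := QuotientGroup.mk
  have hj : Function.Injective j := by
    intro a b h
    have := QuotientGroup.eq.1 h
    rw [Subgroup.mem_bot] at this
    exact inv_mul_eq_one.1 this
  refine ⟨F.image fun f => j f⁻¹, hF.image _, ?_⟩
  rw [Finset.card_image_of_injective _ (fun a b h => inv_injective (hj h))]
  refine le_trans ?_ hc
  rw [set_eq, Set.ncard_coe_finset, Nat.cast_le]
  refine Finset.card_le_card_of_injOn (fun x => (Quotient.out x)⁻¹) ?_ ?_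
  · intro z hz
    rw [Finset.mem_coe] at hz
    unfold products at hz
    rw [Finset.mem_image₂] at hz
    obtain ⟨s, hs, y, hy, rfl⟩ := hz
    obtain ⟨f, hf, rfl⟩ := Finset.mem_image.1 hy
    rw [Finset.mem_coe]
    have e : Quotient.out (s • j f⁻¹) = s * f⁻¹ := by
      apply hj
      exact Quotient.out_eq' _
    show (Quotient.out (s • j f⁻¹))⁻¹ ∈ _
    rw [e, mul_inv_rev, inv_inv]
    exact Finset.mem_image.2 ⟨(f, s⁻¹), Finset.mem_product.2 ⟨hf, Finset.mem_image_of_mem _ hs⟩, rfl⟩
  · intro a _ b _ h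
    have h1 := inv_injective h
    have h2 := congrArg j h1
    have ea : j (Quotient.out a) = a := Quotient.out_eq' _
    have eb : j (Quotient.out b) = b := Quotient.out_eq' _
    rwa [ea, eb] at h2

/-- finitely supported elements of the kernel -/
theorem exists_finite (hG : Amenable G) (α : G →₀ ℂ) (f : G → ℂ) (hf : Memℓp f 2) (hf0 : f ≠ 0)
    (h : ∀ g, α.sum (fun h c => c * f (h⁻¹ * g)) = 0) :
    ∃ b : G →₀ ℂ, b ≠ 0 ∧ ∀ g, α.sum (fun h c => c * b (h⁻¹ * g)) = 0 := by
  classical
  have h1 := ((Pool.Agent.Results.MP_0f25e6_al.CoamenableSubgroups.result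
    (⊥ : Subgroup G)).2.1 (coamenable_bot hG) α).2
  have h2 : ¬ Regular α := by
    intro h3
    obtain ⟨g, hg⟩ := h3 f hf hf0
    exact hg (h g)
  rw [h1] at h2
  push Not at h2
  obtain ⟨Y, f', ⟨hf1, hf2⟩, hf3⟩ := h2
  have hj : Function.Injective (QuotientGroup.mk : G → G ⧸ (⊥ : Subgroup G)) := by
    intro a b h
    have := QuotientGroup.eq.1 h
    rw [Subgroup.mem_bot] at this
    exact inv_mul_eq_one.1 this
  have hfin : (Function.support (f' : G → ℂ)).Finite := by
    refine (Y.finite_toSet.preimage hj.injOn).subset ?_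
    intro x hx
    exact hf2 x hx
  refine ⟨Finsupp.ofSupportFinite (f' : G → ℂ) hfin, ?_, ?_⟩
  · intro h0
    apply hf3
    apply lp.ext
    funext x
    exact DFunLike.congr_fun h0 x
  · intro g
    exact hf1 g

/-- zero divisors over the integers -/
theorem zero_div (α : G →₀ ℂ) (hα : ∀ g, ∃ n : ℤ, α g = n) (hα0 : α ≠ 0) (b : G →₀ ℂ)
    (hb0 : b ≠ 0) (hb : ∀ g, α.sum (fun h c => c * b (h⁻¹ * g)) = 0) :
    ¬ NoZeroDivisors (MonoidAlgebra ℤ G) := by
  classical
  intro hnz
  -- a rational functional which does not vanish at a coefficient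
  obtain ⟨g₀, hg₀⟩ := Finsupp.ne_iff.1 hb0
  rw [Finsupp.coe_zero, Pi.zero_apply] at hg₀
  obtain ⟨lam, hlam⟩ : ∃ lam : ℂ →ₗ[ℚ] ℚ, lam (b g₀) ≠ 0 := by
    by_contra hcon
    push Not at hcon
    exact hg₀ ((Module.forall_dual_apply_eq_zero_iff ℚ (b g₀)).1 hcon)
  -- a common denominator
  let N : ℕ := ∏ g ∈ b.support, (lam (b g)).den
  have hN : N ≠ 0 := Finset.prod_ne_zero_iff.2 fun g _ => (lam (b g)).den_nz
  have hint : ∀ g, ∃ z : ℤ, (z : ℚ) = N * lam (b g) := by
    intro g
    by_cases hg : g ∈ b.support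
    · obtain ⟨k, hk⟩ := Finset.dvd_prod_of_mem (fun g => (lam (b g)).den) hg
      refine ⟨k * (lam (b g)).num, ?_⟩
      have h1 : (N : ℚ) = (lam (b g)).den * k := by
        show ((∏ g ∈ b.support, (lam (b g)).den : ℕ) : ℚ) = _
        rw [hk]; push_cast; ring
      rw [h1]
      have h2 : ((lam (b g)).den : ℚ) * lam (b g) = (lam (b g)).num := Rat.den_mul_eq_num _
      push_cast
      rw [← h2]
      ring
    · refine ⟨0, ?_⟩
      rw [Finsupp.notMem_support_iff.1 hg, map_zero]
      simp
  choose z hz using hint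
  have hzs : (Function.support z).Finite := by
    refine b.support.finite_toSet.subset ?_
    intro g hg
    rw [Finset.mem_coe, Finsupp.mem_support_iff]
    intro h0
    apply hg
    have h1 := hz g
    rw [h0, map_zero, mul_zero] at h1
    exact_mod_cast h1
  let B : MonoidAlgebra ℤ G := MonoidAlgebra.ofCoeff (Finsupp.ofSupportFinite z hzs)
  have hB : ∀ g, B.coeff g = z g := fun g => rfl
  choose a ha using hα
  have has : (Function.support a).Finite := by
    refine α.support.finite_toSet.subset ?_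
    intro g hg
    rw [Finset.mem_coe, Finsupp.mem_support_iff]
    intro h0
    apply hg
    rw [ha g] at h0
    exact_mod_cast h0
  let A : MonoidAlgebra ℤ G := MonoidAlgebra.ofCoeff (Finsupp.ofSupportFinite a has)
  have hA : ∀ g, A.coeff g = a g := fun g => rfl
  have hA0 : A ≠ 0 := by
    intro h0
    apply hα0
    ext g
    rw [ha g, ← hA g, h0]
    simp
  have hB0 : B ≠ 0 := by
    intro h0
    have h1 : z g₀ = 0 := by
      rw [← hB g₀, h0]
      rfl
    have h2 := hz g₀
    rw [h1] at h2
    have h3 : (N : ℚ) * lam (b g₀) ≠ 0 := mul_ne_zero (by exact_mod_cast hN) hlam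
    exact h3 (by rw [← h2]; simp)
  have hAB : A * B = 0 := by
    apply MonoidAlgebra.ext
    ext g
    rw [mul_coeff]
    have h1 := hb g
    rw [Finsupp.sum] at h1 ⊢
    have e1 : A.coeff.support = α.support := by
      ext x
      rw [Finsupp.mem_support_iff, Finsupp.mem_support_iff, hA, ha x]
      simp
    rw [e1]
    show ∑ x ∈ α.support, A.coeff x * B.coeff (x⁻¹ * g) = 0
    have h2 : ((∑ x ∈ α.support, A.coeff x * B.coeff (x⁻¹ * g) : ℤ) : ℚ) =
        N * lam (∑ x ∈ α.support, α x * b (x⁻¹ * g)) := by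
      rw [map_sum, Finset.mul_sum]
      push_cast
      refine Finset.sum_congr rfl fun x _ => ?_
      rw [hA, hB, hz, ha x]
      have h3 : lam ((a x : ℂ) * b (x⁻¹ * g)) = (a x : ℚ) * lam (b (x⁻¹ * g)) := by
        have h4 : (a x : ℂ) * b (x⁻¹ * g) = ((a x : ℚ)) • b (x⁻¹ * g) := by
          rw [Rat.smul_def]
          push_cast
          rfl
        rw [h4, map_smul, smul_eq_mul]
      rw [h3]
      ring
    rw [h1, map_zero, mul_zero] at h2
    exact_mod_cast h2
  rcases mul_eq_zero.1 hAB with h | h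
  · exact hA0 h
  · exact hB0 h

end Pool.Agent.H13.AA
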